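import Mathlib

/-!
Gibbs weights `exp (-ρ)` attached to a subadditive symmetric function on a finite abelian group.
They play the role of smoothed Bohr sets.
-/

set_option autoImplicit false
set_option linter.unusedSectionVars false

namespace Pool.Agent.MP_9da210_nt.H24

open Finset Real

variable {G : Type} [AddCommGroup G] [Fintype G]

/-- subadditive symmetric functions vanishing at zero -/
structure IsSN (ρ : G → ℝ) : Prop where
  zero : ρ 0 = 0
  neg : ∀ x, ρ (-x) = ρ x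
  add : ∀ x y, ρ (x + y) ≤ ρ x + ρ y

omit [Fintype G] in
lemma IsSN.nonneg {ρ : G → ℝ} (h : IsSN ρ) (x : G) : 0 ≤ ρ x := by
  have := h.add x (-x)
  rw [add_neg_cancel, h.zero, h.neg] at this
  linarith

omit [Fintype G] in
lemma IsSN.abs_sub_le {ρ : G → ℝ} (h : IsSN ρ) (x t : G) : |ρ (x + t) - ρ x| ≤ ρ t := by
  rw [abs_le]
  have h1 := h.add x t
  have h2 := h.add (x + t) (-t)
  rw [add_neg_cancel_right, h.neg] at h2
  constructor <;> linarith

omit [Fintype G] in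
lemma IsSN.smul {ρ : G → ℝ} (h : IsSN ρ) {a : ℝ} (ha : 0 ≤ a) : IsSN (fun x => a * ρ x) := by
  refine ⟨by simp [h.zero], fun x => by simp [h.neg], fun x y => ?_⟩
  have := mul_le_mul_of_nonneg_left (h.add x y) ha
  linarith

omit [Fintype G] in
lemma IsSN.plus {ρ σ : G → ℝ} (h : IsSN ρ) (h' : IsSN σ) : IsSN (fun x => ρ x + σ x) := by
  refine ⟨by simp [h.zero, h'.zero], fun x => by simp [h.neg, h'.neg], fun x y => ?_⟩
  have := h.add x y
  have := h'.add x y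
  linarith

/-- partition function -/
noncomputable def Z (ρ : G → ℝ) : ℝ := ∑ x, exp (-ρ x)

/-- Gibbs probability weight -/
noncomputable def mu (ρ : G → ℝ) (x : G) : ℝ := exp (-ρ x) / Z ρ

lemma Z_pos (ρ : G → ℝ) : 0 < Z ρ :=
  Finset.sum_pos (fun _ _ => exp_pos _) ⟨0, mem_univ _⟩

lemma mu_pos (ρ : G → ℝ) (x : G) : 0 < mu ρ x := div_pos (exp_pos _) (Z_pos ρ)

lemma mu_nonneg (ρ : G → ℝ) (x : G) : 0 ≤ mu ρ x := (mu_pos ρ x).le

lemma sum_mu (ρ : G → ℝ) : ∑ x, mu ρ x = 1 := by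
  unfold mu
  rw [← Finset.sum_div]
  exact div_self (Z_pos ρ).ne'

lemma one_le_Z {ρ : G → ℝ} (h : IsSN ρ) : 1 ≤ Z ρ := by
  have : exp (-ρ 0) ≤ Z ρ :=
    Finset.single_le_sum (f := fun x => exp (-ρ x)) (fun _ _ => (exp_pos _).le) (mem_univ 0)
  rwa [h.zero, neg_zero, exp_zero] at this

lemma mu_le {ρ : G → ℝ} (h : IsSN ρ) (x : G) : mu ρ x ≤ 1 / Z ρ := by
  unfold mu
  refine div_le_div_of_nonneg_right ?_ (Z_pos ρ).le
  rw [exp_le_one_iff]
  have := h.nonneg x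
  linarith

lemma exp_neg_diff (a b : ℝ) : |exp (-a) - exp (-b)| ≤ |a - b| * (exp (-a) + exp (-b)) := by
  wlog hab : a ≤ b generalizing a b
  · have := this b a (by linarith)
    rwa [abs_sub_comm, abs_sub_comm b a, add_comm] at this
  have h1 : exp (-b) = exp (-a) * exp (-(b - a)) := by
    rw [← exp_add]; congr 1; ring
  have h2 : -(b - a) + 1 ≤ exp (-(b - a)) := add_one_le_exp _
  have h3 : exp (-b) ≤ exp (-a) := exp_le_exp.mpr (by linarith)
  have ha := exp_pos (-a)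
  have hb := exp_pos (-b)
  rw [abs_of_nonneg (by linarith), abs_of_nonpos (by linarith)]
  nlinarith

/-- weighted averages of bounded functions are bounded -/
lemma abs_avg_le (ρ : G → ℝ) (F : G → ℝ) {c : ℝ} (hF : ∀ x, |F x| ≤ c) :
    |∑ x, mu ρ x * F x| ≤ c := by
  calc |∑ x, mu ρ x * F x| ≤ ∑ x, |mu ρ x * F x| := Finset.abs_sum_le_sum_abs _ _
    _ ≤ ∑ x, mu ρ x * c := by
        refine Finset.sum_le_sum fun x _ => ?_
        rw [abs_mul, abs_of_nonneg (mu_nonneg ρ x)]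
        exact mul_le_mul_of_nonneg_left (hF x) (mu_nonneg ρ x)
    _ = c := by rw [← Finset.sum_mul, sum_mu, one_mul]

lemma avg_le_avg (ρ : G → ℝ) {F H : G → ℝ} (h : ∀ x, F x ≤ H x) :
    ∑ x, mu ρ x * F x ≤ ∑ x, mu ρ x * H x :=
  Finset.sum_le_sum fun x _ => mul_le_mul_of_nonneg_left (h x) (mu_nonneg ρ x)

lemma avg_const (ρ : G → ℝ) (c : ℝ) : ∑ x, mu ρ x * c = c := by
  rw [← Finset.sum_mul, sum_mu, one_mul]

lemma avg_add (ρ : G → ℝ) (F H : G → ℝ) :
    ∑ x, mu ρ x * (F x + H x) = ∑ x, mu ρ x * F x + ∑ x, mu ρ x * H x := by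
  rw [← Finset.sum_add_distrib]
  exact Finset.sum_congr rfl fun x _ => by ring

lemma avg_sub (ρ : G → ℝ) (F H : G → ℝ) :
    ∑ x, mu ρ x * (F x - H x) = ∑ x, mu ρ x * F x - ∑ x, mu ρ x * H x := by
  rw [← Finset.sum_sub_distrib]
  exact Finset.sum_congr rfl fun x _ => by ring

lemma avg_mul (ρ : G → ℝ) (c : ℝ) (F : G → ℝ) :
    ∑ x, mu ρ x * (c * F x) = c * ∑ x, mu ρ x * F x := by
  rw [Finset.mul_sum]
  exact Finset.sum_congr rfl fun x _ => by ring

lemma abs_avg_le_avg_abs (ρ : G → ℝ) (F : G → ℝ) :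
    |∑ x, mu ρ x * F x| ≤ ∑ x, mu ρ x * |F x| := by
  refine (Finset.abs_sum_le_sum_abs _ _).trans (le_of_eq ?_)
  refine Finset.sum_congr rfl fun x _ => ?_
  rw [abs_mul, abs_of_nonneg (mu_nonneg ρ x)]

lemma avg_comm (ρ σ : G → ℝ) (F : G → G → ℝ) :
    ∑ x, mu ρ x * ∑ y, mu σ y * F x y = ∑ y, mu σ y * ∑ x, mu ρ x * F x y := by
  simp_rw [Finset.mul_sum]
  rw [Finset.sum_comm]
  exact Finset.sum_congr rfl fun y _ => Finset.sum_congr rfl fun x _ => by ring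

lemma sum_shift (F : G → ℝ) (t : G) : ∑ x, F (x + t) = ∑ x, F x :=
  Fintype.sum_equiv (Equiv.addRight t) _ _ fun _ => rfl

lemma mu_shift_L1 {ρ : G → ℝ} (h : IsSN ρ) (t : G) :
    ∑ x, |mu ρ (x + t) - mu ρ x| ≤ 2 * ρ t := by
  have h1 : ∀ x, |mu ρ (x + t) - mu ρ x| ≤ ρ t * (mu ρ (x + t) + mu ρ x) := by
    intro x
    unfold mu
    rw [← sub_div, ← add_div, abs_div, abs_of_pos (Z_pos ρ), ← mul_div_assoc]
    refine div_le_div_of_nonneg_right ?_ (Z_pos ρ).le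
    refine (exp_neg_diff _ _).trans ?_
    exact mul_le_mul_of_nonneg_right (h.abs_sub_le x t) (by positivity)
  calc ∑ x, |mu ρ (x + t) - mu ρ x| ≤ ∑ x, ρ t * (mu ρ (x + t) + mu ρ x) :=
        Finset.sum_le_sum fun x _ => h1 x
    _ = 2 * ρ t := by
        rw [← Finset.mul_sum, Finset.sum_add_distrib, sum_shift (mu ρ) t, sum_mu]
        ring

/-- approximate translation invariance -/
lemma avg_shift {ρ : G → ℝ} (h : IsSN ρ) (F : G → ℝ) (hF : ∀ x, |F x| ≤ 1) (t : G) :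
    |∑ x, mu ρ x * F (x + t) - ∑ x, mu ρ x * F x| ≤ 2 * ρ t := by
  have h1 : ∑ x, mu ρ x * F (x + t) = ∑ x, mu ρ (x + -t) * F x := by
    rw [← sum_shift (fun x => mu ρ (x + -t) * F x) t]
    simp
  rw [h1, ← Finset.sum_sub_distrib]
  calc |∑ x, (mu ρ (x + -t) * F x - mu ρ x * F x)|
      ≤ ∑ x, |mu ρ (x + -t) * F x - mu ρ x * F x| := Finset.abs_sum_le_sum_abs _ _
    _ ≤ ∑ x, |mu ρ (x + -t) - mu ρ x| := by
        refine Finset.sum_le_sum fun x _ => ?_
        rw [← sub_mul, abs_mul]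
        exact mul_le_of_le_one_right (abs_nonneg _) (hF x)
    _ ≤ 2 * ρ t := by
        have := mu_shift_L1 h (-t)
        rwa [h.neg] at this

/-- the Gibbs bound for the mean energy -/
lemma avg_energy_le {ρ : G → ℝ} (h : IsSN ρ) :
    ∑ x, mu ρ x * ρ x ≤ log (Fintype.card G) := by
  have hM : (0 : ℝ) < Fintype.card G := by exact_mod_cast Fintype.card_pos
  have hZ := Z_pos ρ
  have h1 : ∀ x, mu ρ x * ρ x ≤ mu ρ x * (log (Fintype.card G) - 1) + 1 / Fintype.card G := by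
    intro x
    have h2 : log (exp (ρ x) * Z ρ / Fintype.card G) ≤ exp (ρ x) * Z ρ / Fintype.card G - 1 :=
      log_le_sub_one_of_pos (by positivity)
    rw [log_div (by positivity) hM.ne', log_mul (exp_pos _).ne' hZ.ne', log_exp] at h2
    have h3 : 0 ≤ log (Z ρ) := log_nonneg (one_le_Z h)
    have h4 : mu ρ x * (exp (ρ x) * Z ρ / Fintype.card G) = 1 / Fintype.card G := by
      unfold mu
      rw [exp_neg]
      field_simp
    have h5 := mu_nonneg ρ x
    nlinarith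
  calc ∑ x, mu ρ x * ρ x
      ≤ ∑ x, (mu ρ x * (log (Fintype.card G) - 1) + 1 / Fintype.card G) :=
        Finset.sum_le_sum fun x _ => h1 x
    _ = log (Fintype.card G) := by
        rw [Finset.sum_add_distrib, avg_const, Finset.sum_const, Finset.card_univ, nsmul_eq_mul]
        field_simp
        ring

/-- after scaling by `lam` the mean of the original function is small -/
lemma avg_scaled_le {ρ : G → ℝ} (h : IsSN ρ) {lam κ : ℝ} (hlam : 0 < lam)
    (hL : log (Fintype.card G) ≤ lam * κ) :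
    ∑ x, mu (fun y => lam * ρ y) x * ρ x ≤ κ := by
  have h1 := avg_energy_le (h.smul hlam.le)
  rw [avg_mul] at h1
  exact le_of_mul_le_mul_left (h1.trans hL) hlam

/-- square root of the Gibbs weight -/
noncomputable def sq (ρ : G → ℝ) (x : G) : ℝ := exp (-(ρ x / 2)) / √(Z ρ)

lemma sq_mul (ρ : G → ℝ) (x y : G) : sq ρ x * sq ρ y = exp (-((ρ x + ρ y) / 2)) / Z ρ := by
  unfold sq
  rw [div_mul_div_comm, ← exp_add, Real.mul_self_sqrt (Z_pos ρ).le]
  congr 2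
  ring

lemma sq_mul_self (ρ : G → ℝ) (x : G) : sq ρ x * sq ρ x = mu ρ x := by
  rw [sq_mul]
  unfold mu
  congr 2
  ring

lemma sq_L1 {ρ : G → ℝ} (h : IsSN ρ) (t u : G) :
    ∑ x, |mu ρ x - sq ρ (x + t) * sq ρ (x + u)| ≤ ρ t + ρ u := by
  have h1 : ∀ x, |mu ρ x - sq ρ (x + t) * sq ρ (x + u)| ≤
      (ρ t + ρ u) / 2 * (mu ρ x + (mu ρ (x + t) + mu ρ (x + u)) / 2) := by
    intro x
    have h2 : sq ρ (x + t) * sq ρ (x + u) ≤ (mu ρ (x + t) + mu ρ (x + u)) / 2 := by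
      rw [← sq_mul_self, ← sq_mul_self]
      nlinarith [sq_nonneg (sq ρ (x + t) - sq ρ (x + u))]
    have h3 : |mu ρ x - sq ρ (x + t) * sq ρ (x + u)| ≤
        (ρ t + ρ u) / 2 * (mu ρ x + sq ρ (x + t) * sq ρ (x + u)) := by
      rw [sq_mul]
      unfold mu
      rw [← sub_div, ← add_div, abs_div, abs_of_pos (Z_pos ρ), ← mul_div_assoc]
      refine div_le_div_of_nonneg_right ?_ (Z_pos ρ).le
      refine (exp_neg_diff _ _).trans ?_
      refine mul_le_mul_of_nonneg_right ?_ (by positivity)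
      have ha := abs_le.mp (h.abs_sub_le x t)
      have hb := abs_le.mp (h.abs_sub_le x u)
      rw [abs_le]
      constructor <;> linarith [ha.1, ha.2, hb.1, hb.2]
    refine h3.trans (mul_le_mul_of_nonneg_left (by linarith) ?_)
    have := h.nonneg t
    have := h.nonneg u
    positivity
  calc ∑ x, |mu ρ x - sq ρ (x + t) * sq ρ (x + u)|
      ≤ ∑ x, (ρ t + ρ u) / 2 * (mu ρ x + (mu ρ (x + t) + mu ρ (x + u)) / 2) :=
        Finset.sum_le_sum fun x _ => h1 x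
    _ = ρ t + ρ u := by
        rw [← Finset.mul_sum, Finset.sum_add_distrib, ← Finset.sum_div, Finset.sum_add_distrib,
          sum_shift (mu ρ) t, sum_shift (mu ρ) u, sum_mu]
        ring

/-- `G` splits into at most `n` cells of `ρ`-diameter at most `ε` -/
def Cover (ρ : G → ℝ) (ε : ℝ) (n : ℕ) : Prop :=
  ∃ φ : G → Fin n, ∀ x y, φ x = φ y → ρ (x - y) ≤ ε

omit [Fintype G] in
lemma Cover.mono {ρ : G → ℝ} {ε ε' : ℝ} {n : ℕ} (h : Cover ρ ε n) (hε : ε ≤ ε') :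
    Cover ρ ε' n := by
  obtain ⟨φ, hφ⟩ := h
  exact ⟨φ, fun x y hxy => (hφ x y hxy).trans hε⟩

omit [Fintype G] in
lemma Cover.smul {ρ : G → ℝ} {ε : ℝ} {n : ℕ} (h : Cover ρ ε n) {a : ℝ} (ha : 0 ≤ a) :
    Cover (fun x => a * ρ x) (a * ε) n := by
  obtain ⟨φ, hφ⟩ := h
  exact ⟨φ, fun x y hxy => mul_le_mul_of_nonneg_left (hφ x y hxy) ha⟩

omit [Fintype G] in
lemma Cover.plus {ρ σ : G → ℝ} {ε ε' : ℝ} {n m : ℕ} (h : Cover ρ ε n) (h' : Cover σ ε' m) :
    Cover (fun x => ρ x + σ x) (ε + ε') (n * m) := by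
  obtain ⟨φ, hφ⟩ := h
  obtain ⟨ψ, hψ⟩ := h'
  refine ⟨fun x => finProdFinEquiv (φ x, ψ x), fun x y hxy => ?_⟩
  have := finProdFinEquiv.injective hxy
  exact add_le_add (hφ x y (Prod.ext_iff.mp this).1) (hψ x y (Prod.ext_iff.mp this).2)

lemma Cover.le_Z {ρ : G → ℝ} {n : ℕ} (h : Cover ρ 1 n) :
    (Fintype.card G : ℝ) ≤ 3 * n * Z ρ := by
  classical
  obtain ⟨φ, hφ⟩ := h
  have hn : Nonempty (Fin n) := ⟨φ 0⟩
  have hn' : (0 : ℝ) < n := by
    have : 0 < n := Fin.pos_iff_nonempty.mpr hn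
    exact_mod_cast this
  have hM : (0 : ℝ) < Fintype.card G := by exact_mod_cast Fintype.card_pos
  obtain ⟨y, hy⟩ := Fintype.exists_le_card_fiber_of_nsmul_le_card φ
    (b := (Fintype.card G : ℝ) / n) (by
      rw [Fintype.card_fin, nsmul_eq_mul, mul_div_cancel₀ _ hn'.ne'])
  have hpos : 0 < #{x | φ x = y} := by
    have : (0 : ℝ) < (#{x | φ x = y} : ℕ) := lt_of_lt_of_le (div_pos hM hn') hy
    exact_mod_cast this
  obtain ⟨x₀, hx₀⟩ := Finset.card_pos.mp hpos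
  have hx₀' : φ x₀ = y := (Finset.mem_filter.mp hx₀).2
  have he : (1 : ℝ) / 3 ≤ exp (-1) := by
    rw [exp_neg, one_div]
    exact inv_anti₀ (exp_pos 1) (exp_one_lt_three.le)
  have h1 : (#{x | φ x = y} : ℕ) * (1 / 3 : ℝ) ≤ Z ρ := by
    calc (#{x | φ x = y} : ℕ) * (1 / 3 : ℝ) = ∑ x ∈ univ.filter (fun x => φ x = y), (1 / 3 : ℝ) := by
          rw [Finset.sum_const, nsmul_eq_mul]
      _ ≤ ∑ x ∈ univ.filter (fun x => φ x = y), exp (-ρ (x + -x₀)) := by
          refine Finset.sum_le_sum fun x hx => he.trans (exp_le_exp.mpr ?_)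
          have := hφ x x₀ ((Finset.mem_filter.mp hx).2.trans hx₀'.symm)
          rw [sub_eq_add_neg] at this
          linarith
      _ ≤ ∑ x, exp (-ρ (x + -x₀)) :=
          Finset.sum_le_sum_of_subset_of_nonneg (Finset.filter_subset _ _)
            fun _ _ _ => (exp_pos _).le
      _ = Z ρ := sum_shift (fun x => exp (-ρ x)) (-x₀)
  rw [div_le_iff₀ hn'] at hy
  nlinarith

end Pool.Agent.MP_9da210_nt.H24
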