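import Mathlib
import Pool.Agent.MP_9da210_nt.H24.Basic

/-!
Characters: the attached seminorm, its covering number, and a local inverse theorem.
-/

set_option autoImplicit false
set_option linter.unusedSectionVars false

namespace Pool.Agent.MP_9da210_nt.H24

open Finset Real

variable {G : Type} [AddCommGroup G] [Fintype G]

/-- distance of a character value from one -/
noncomputable def sig (χ : AddChar G ℂ) (x : G) : ℝ := ‖1 - χ x‖

lemma sig_isSN (χ : AddChar G ℂ) : IsSN (sig χ) := by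
  refine ⟨by simp [sig], fun x => ?_, fun x y => ?_⟩
  · unfold sig
    rw [AddChar.map_neg_eq_conj, ← Complex.norm_conj (1 - χ x)]
    simp
  · unfold sig
    rw [AddChar.map_add_eq_mul]
    have h1 : (1 : ℂ) - χ x * χ y = (1 - χ x) + χ x * (1 - χ y) := by ring
    rw [h1]
    refine (norm_add_le _ _).trans ?_
    rw [norm_mul, AddChar.norm_apply, one_mul]

lemma sig_sub (χ : AddChar G ℂ) (x y : G) : sig χ (x - y) = ‖χ y - χ x‖ := by
  unfold sig
  have h1 : χ y - χ x = χ y * (1 - χ (x - y)) := by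
    rw [mul_sub, mul_one, ← AddChar.map_add_eq_mul]
    congr 2
    abel
  rw [h1, norm_mul, AddChar.norm_apply, one_mul]

lemma abs_re_le_one (χ : AddChar G ℂ) (x : G) : |(χ x).re| ≤ 1 := by
  have := Complex.abs_re_le_norm (χ x)
  rwa [AddChar.norm_apply] at this

lemma abs_im_le_one (χ : AddChar G ℂ) (x : G) : |(χ x).im| ≤ 1 := by
  have := Complex.abs_im_le_norm (χ x)
  rwa [AddChar.norm_apply] at this

lemma re_shift (χ : AddChar G ℂ) (x r : G) : |(χ (x + r)).re - (χ x).re| ≤ sig χ r := by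
  have h1 : sig χ r = ‖χ x - χ (x + r)‖ := by
    rw [← sig_sub]
    congr 1
    abel
  rw [h1, ← Complex.sub_re, norm_sub_rev]
  exact Complex.abs_re_le_norm _

lemma floor_cell {n : ℕ} (hn : 0 < n) {a b : ℝ} (ha : |a| ≤ 1) (hb : |b| ≤ 1)
    (h : ⌊(a + 1) * n⌋₊ = ⌊(b + 1) * n⌋₊) : |a - b| ≤ 1 / n := by
  have hn' : (0 : ℝ) < n := by exact_mod_cast hn
  have ha' := abs_le.mp ha
  have hb' := abs_le.mp hb
  have h1 : 0 ≤ (a + 1) * n := mul_nonneg (by linarith) hn'.le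
  have h2 : 0 ≤ (b + 1) * n := mul_nonneg (by linarith) hn'.le
  have h3 := Nat.floor_le h1
  have h4 := Nat.floor_le h2
  have h5 := Nat.lt_floor_add_one ((a + 1) * n)
  have h6 := Nat.lt_floor_add_one ((b + 1) * n)
  rw [h] at h3 h5
  rw [le_div_iff₀ hn', ← abs_of_pos hn', ← abs_mul, abs_le]
  constructor <;> nlinarith

lemma floor_lt {n : ℕ} {a : ℝ} (ha : |a| ≤ 1) : ⌊(a + 1) * n⌋₊ < 2 * n + 1 := by
  have ha' := abs_le.mp ha
  have hn' : (0 : ℝ) ≤ n := Nat.cast_nonneg n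
  refine Nat.lt_succ_of_le (Nat.floor_le_of_le ?_)
  push_cast
  nlinarith

lemma sig_cover (χ : AddChar G ℂ) {n : ℕ} (hn : 0 < n) :
    Cover (sig χ) (2 / n) ((2 * n + 1) * (2 * n + 1)) := by
  refine ⟨fun x => finProdFinEquiv
    (⟨⌊((χ x).re + 1) * n⌋₊, floor_lt (abs_re_le_one χ x)⟩,
     ⟨⌊((χ x).im + 1) * n⌋₊, floor_lt (abs_im_le_one χ x)⟩), fun x y hxy => ?_⟩
  have h := finProdFinEquiv.injective hxy
  have h1 : ⌊((χ x).re + 1) * n⌋₊ = ⌊((χ y).re + 1) * n⌋₊ :=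
    congrArg Fin.val (Prod.ext_iff.mp h).1
  have h2 : ⌊((χ x).im + 1) * n⌋₊ = ⌊((χ y).im + 1) * n⌋₊ :=
    congrArg Fin.val (Prod.ext_iff.mp h).2
  have h3 := floor_cell hn (abs_re_le_one χ x) (abs_re_le_one χ y) h1
  have h4 := floor_cell hn (abs_im_le_one χ x) (abs_im_le_one χ y) h2
  rw [sig_sub]
  refine (Complex.norm_le_abs_re_add_abs_im _).trans ?_
  rw [Complex.sub_re, Complex.sub_im, abs_sub_comm, abs_sub_comm (χ y).im]
  have : (2 : ℝ) / n = 1 / n + 1 / n := by ring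
  linarith

/-- spectral decomposition of an autocorrelation function -/
lemma exists_spectral (g : G → ℝ) : ∃ m : AddChar G ℂ → ℝ, (∀ χ, 0 ≤ m χ) ∧
    ∀ r, ∑ χ, m χ * (χ r).re = ∑ x, g x * g (x + r) := by
  classical
  have hM : (0 : ℝ) < Fintype.card G := by exact_mod_cast Fintype.card_pos
  have hMc : (Fintype.card G : ℂ) ≠ 0 := by exact_mod_cast Fintype.card_ne_zero
  refine ⟨fun χ => Complex.normSq (∑ x, (g x : ℂ) * χ x) / Fintype.card G,
    fun χ => div_nonneg (Complex.normSq_nonneg _) hM.le, fun r => ?_⟩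
  have key : ∑ χ : AddChar G ℂ, ((Complex.normSq (∑ x, (g x : ℂ) * χ x) : ℂ)) * χ r =
      Fintype.card G * ∑ x, ((g x * g (x + r) : ℝ) : ℂ) := by
    have h1 : ∀ χ : AddChar G ℂ, ((Complex.normSq (∑ x, (g x : ℂ) * χ x) : ℂ)) * χ r =
        ∑ x, ∑ y, (g x : ℂ) * g y * χ (x + r - y) := by
      intro χ
      rw [← Complex.mul_conj, map_sum, Finset.sum_mul_sum, Finset.sum_mul]
      refine Finset.sum_congr rfl fun x _ => ?_
      rw [Finset.sum_mul]
      refine Finset.sum_congr rfl fun y _ => ?_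
      rw [map_mul, Complex.conj_ofReal, ← AddChar.map_neg_eq_conj, sub_eq_add_neg,
        AddChar.map_add_eq_mul, AddChar.map_add_eq_mul]
      ring
    simp_rw [h1]
    rw [Finset.sum_comm, Finset.mul_sum]
    refine Finset.sum_congr rfl fun x _ => ?_
    rw [Finset.sum_comm]
    simp_rw [← Finset.mul_sum, AddChar.sum_apply_eq_ite, sub_eq_zero]
    rw [Finset.sum_eq_single (x + r)]
    · simp; ring
    · intro y _ hy
      rw [if_neg (Ne.symm hy), mul_zero]
    · intro h; exact absurd (mem_univ _) h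
  have h2 := congrArg Complex.re key
  rw [Complex.re_sum] at h2
  simp only [Complex.mul_re, Complex.ofReal_re, Complex.ofReal_im, zero_mul, sub_zero,
    Complex.natCast_re, Complex.natCast_im, Complex.re_sum] at h2
  have h3 : ∑ χ : AddChar G ℂ, Complex.normSq (∑ x, (g x : ℂ) * χ x) / Fintype.card G * (χ r).re =
      (∑ χ : AddChar G ℂ, Complex.normSq (∑ x, (g x : ℂ) * χ x) * (χ r).re) / Fintype.card G := by
    rw [Finset.sum_div]
    exact Finset.sum_congr rfl fun χ _ => by ring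
  rw [h3, h2]
  field_simp

/-- the local correlation form -/
noncomputable def Q (ρ τ : G → ℝ) (f : G → ℝ) (k : G → G → ℝ) : ℝ :=
  ∑ t, mu τ t * ∑ u, mu τ u * (k t u * ∑ h, mu ρ h * (f (h + t) * f (h + u)))

/-- symmetrised version of the local correlation form -/
noncomputable def Q' (ρ τ : G → ℝ) (f : G → ℝ) (k : G → G → ℝ) : ℝ :=
  ∑ t, mu τ t * ∑ u, mu τ u *
    (k t u * ∑ h, (sq ρ h * f h) * (sq ρ (h + (t - u)) * f (h + (t - u))))

lemma Q_sub_Q' {ρ τ : G → ℝ} (hρ : IsSN ρ) {κ : ℝ} (hκ : ∑ t, mu τ t * ρ t ≤ κ)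
    (f : G → ℝ) (hf : ∀ x, |f x| ≤ 1) (k : G → G → ℝ) (hk : ∀ t u, |k t u| ≤ 1) :
    |Q ρ τ f k - Q' ρ τ f k| ≤ 2 * κ := by
  unfold Q Q'
  rw [← avg_sub]
  refine (abs_avg_le_avg_abs _ _).trans ?_
  have h1 : ∀ t u : G, |k t u * ∑ h, mu ρ h * (f (h + t) * f (h + u)) -
      k t u * ∑ h, (sq ρ h * f h) * (sq ρ (h + (t - u)) * f (h + (t - u)))| ≤ ρ t + ρ u := by
    intro t u
    rw [← mul_sub, abs_mul]
    refine (mul_le_of_le_one_left (abs_nonneg _) (hk t u)).trans ?_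
    rw [← sum_shift (fun h => (sq ρ h * f h) * (sq ρ (h + (t - u)) * f (h + (t - u)))) u,
      ← Finset.sum_sub_distrib]
    refine (Finset.abs_sum_le_sum_abs _ _).trans (le_trans ?_ (sq_L1 hρ t u))
    refine Finset.sum_le_sum fun h _ => ?_
    have h2 : h + u + (t - u) = h + t := by abel
    rw [h2]
    have h3 : mu ρ h * (f (h + t) * f (h + u)) -
        sq ρ (h + u) * f (h + u) * (sq ρ (h + t) * f (h + t)) =
        (mu ρ h - sq ρ (h + t) * sq ρ (h + u)) * (f (h + t) * f (h + u)) := by ring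
    rw [h3, abs_mul]
    refine mul_le_of_le_one_right (abs_nonneg _) ?_
    rw [abs_mul]
    exact mul_le_one₀ (hf _) (abs_nonneg _) (hf _)
  calc _ ≤ ∑ t, mu τ t * (ρ t + κ) := by
        refine avg_le_avg _ fun t => ?_
        rw [← avg_sub]
        refine (abs_avg_le_avg_abs _ _).trans ?_
        refine (avg_le_avg _ fun u => h1 t u).trans ?_
        rw [avg_add, avg_const]
        linarith
    _ ≤ 2 * κ := by
        rw [avg_add, avg_const]
        linarith

/-- local inverse theorem in linearised form -/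
lemma local_inverse {ρ τ : G → ℝ} (hρ : IsSN ρ) {κ : ℝ} (hκ : ∑ t, mu τ t * ρ t ≤ κ)
    (f : G → ℝ) (hf : ∀ x, |f x| ≤ 1) (k : G → G → ℝ) (hk : ∀ t u, |k t u| ≤ 1)
    {a : ℝ} (ha : 0 ≤ a) {w : ℝ} (hw0 : 0 ≤ w)
    (hw : ∀ χ : AddChar G ℂ, Q ρ τ f (fun t u => (χ (t - u)).re) ≤ w) :
    2 * a * (Q ρ τ f k - 2 * κ) - a ^ 2 ≤ w + 2 * κ := by
  obtain ⟨m, hm0, hm⟩ := exists_spectral (fun h => sq ρ h * f h)
  set φ : G → ℝ := fun r => ∑ h, (sq ρ h * f h) * (sq ρ (h + r) * f (h + r)) with hφ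
  have hκ0 : 0 ≤ κ :=
    le_trans (Finset.sum_nonneg fun t _ => mul_nonneg (mu_nonneg _ _) (hρ.nonneg _)) hκ
  have hmsum : ∑ χ, m χ ≤ 1 := by
    have h0 := hm 0
    simp only [AddChar.map_zero_eq_one, Complex.one_re, mul_one, add_zero] at h0
    rw [h0, ← sum_mu ρ]
    refine Finset.sum_le_sum fun x _ => ?_
    have h1 : sq ρ x * f x * (sq ρ x * f x) = mu ρ x * (f x * f x) := by
      rw [← sq_mul_self]; ring
    rw [h1]
    refine mul_le_of_le_one_right (mu_nonneg _ _) ?_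
    have := abs_le.mp (hf x)
    nlinarith
  have h1 : 2 * a * Q' ρ τ f k ≤ a ^ 2 + ∑ t, mu τ t * ∑ u, mu τ u * (φ (t - u) * φ (t - u)) := by
    unfold Q'
    rw [← avg_mul, ← avg_const τ (a ^ 2), ← avg_add]
    refine avg_le_avg _ fun t => ?_
    rw [← avg_mul, ← avg_const τ (a ^ 2), ← avg_add]
    refine avg_le_avg _ fun u => ?_
    show 2 * a * (k t u * φ (t - u)) ≤ a ^ 2 + φ (t - u) * φ (t - u)
    have h2 := abs_le.mp (hk t u)
    have h3 : (a * k t u) ^ 2 ≤ a ^ 2 := by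
      rw [mul_pow]
      refine mul_le_of_le_one_right (sq_nonneg _) ?_
      nlinarith
    nlinarith [sq_nonneg (a * k t u - φ (t - u))]
  have h2 : ∑ t, mu τ t * ∑ u, mu τ u * (φ (t - u) * φ (t - u)) =
      ∑ χ, m χ * Q' ρ τ f (fun t u => (χ (t - u)).re) := by
    have hm' : ∀ r, ∑ χ, m χ * (χ r).re = φ r := hm
    show _ = ∑ χ, m χ * ∑ t, mu τ t * ∑ u, mu τ u * ((χ (t - u)).re * φ (t - u))
    clear_value φ
    have h5 : ∀ t u : G, φ (t - u) * φ (t - u) = ∑ χ, m χ * ((χ (t - u)).re * φ (t - u)) := by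
      intro t u
      simp_rw [← mul_assoc]
      rw [← Finset.sum_mul, hm']
    simp_rw [h5, Finset.mul_sum]
    rw [Finset.sum_comm (β := ℝ) (s := (univ : Finset (AddChar G ℂ)))]
    refine Finset.sum_congr rfl fun t _ => ?_
    rw [Finset.sum_comm]
    refine Finset.sum_congr rfl fun u _ => Finset.sum_congr rfl fun χ _ => by ring
  have h3 : ∑ χ, m χ * Q' ρ τ f (fun t u => (χ (t - u)).re) ≤ w + 2 * κ := by
    calc ∑ χ, m χ * Q' ρ τ f (fun t u => (χ (t - u)).re) ≤ ∑ χ, m χ * (w + 2 * κ) := by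
          refine Finset.sum_le_sum fun χ _ => mul_le_mul_of_nonneg_left ?_ (hm0 χ)
          have h4 := abs_le.mp (Q_sub_Q' hρ hκ f hf (fun t u => (χ (t - u)).re)
            fun t u => abs_re_le_one χ _)
          have := hw χ
          linarith [h4.1]
      _ ≤ w + 2 * κ := by
          rw [← Finset.sum_mul]
          exact mul_le_of_le_one_left (by linarith) hmsum
  have h4 := abs_le.mp (Q_sub_Q' hρ hκ f hf k hk)
  have h5 : 2 * a * (Q ρ τ f k - 2 * κ) ≤ 2 * a * Q' ρ τ f k :=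
    mul_le_mul_of_nonneg_left (by linarith [h4.2]) (by linarith)
  linarith

end Pool.Agent.MP_9da210_nt.H24
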