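import Mathlib
import Pool.Agent.MP_9da210_nt.H24.Fourier

/-!
The density increment step.
-/

set_option autoImplicit false
set_option linter.unusedSectionVars false

namespace Pool.Agent.MP_9da210_nt.H24

open Finset Real

variable {G : Type} [AddCommGroup G] [Fintype G]

/-- two-fold local average of `b` around `s` -/
noncomputable def D (b : G → ℝ) (s : G) (ρ : G → ℝ) : ℝ :=
  ∑ v, mu ρ v * ∑ w, mu ρ w * b (s + (v + w))

lemma avg_rot (ρ σ τ : G → ℝ) (F : G → G → G → ℝ) :
    ∑ x, mu ρ x * ∑ y, mu σ y * ∑ z, mu τ z * F x y z =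
      ∑ z, mu τ z * ∑ x, mu ρ x * ∑ y, mu σ y * F x y z := by
  rw [← avg_comm ρ τ (fun x z => ∑ y, mu σ y * F x y z)]
  refine Finset.sum_congr rfl fun x _ => ?_
  rw [avg_comm σ τ]

lemma two_fold {ρ' β : G → ℝ} (hβ : IsSN β) {κ : ℝ} (hκ : ∑ v, mu ρ' v * β v ≤ κ)
    (H : G → ℝ) (c : ℝ) (hH : ∀ r, |H r - c| ≤ 2 * β r) :
    |∑ v, mu ρ' v * ∑ w, mu ρ' w * H (v + w) - c| ≤ 4 * κ := by
  have h1 : ∑ v, mu ρ' v * ∑ w, mu ρ' w * H (v + w) - c =
      ∑ v, mu ρ' v * ∑ w, mu ρ' w * (H (v + w) - c) := by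
    simp_rw [avg_sub, avg_const]
  rw [h1]
  refine (abs_avg_le_avg_abs _ _).trans ?_
  calc _ ≤ ∑ v, mu ρ' v * (2 * β v + 2 * κ) := by
        refine avg_le_avg _ fun v => ?_
        refine (abs_avg_le_avg_abs _ _).trans ?_
        calc _ ≤ ∑ w, mu ρ' w * (2 * β v + 2 * β w) := by
              refine avg_le_avg _ fun w => (hH _).trans ?_
              have := hβ.add v w
              linarith
          _ ≤ 2 * β v + 2 * κ := by
              rw [avg_add, avg_const, avg_mul]
              linarith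
    _ ≤ 4 * κ := by
        rw [avg_add, avg_const, avg_mul]
        linarith

lemma Q_upper {ρ τ ρ' : G → ℝ} (hρ : IsSN ρ) (hτ : IsSN τ) (χ : AddChar G ℂ) {κ η : ℝ}
    (h1 : ∑ t, mu τ t * ρ t ≤ κ) (h2 : ∑ v, mu ρ' v * (τ v + sig χ v) ≤ κ)
    (h3 : ∑ v, mu ρ' v * ρ v ≤ κ) (hη : 0 ≤ η)
    (f : G → ℝ) (hf : ∀ x, |f x| ≤ 1) (hF : ∀ z, D f z ρ' ≤ η) :
    Q ρ τ f (fun t u => (χ (t - u)).re) ≤ 2 * η - ∑ h, mu ρ h * f h + 10 * κ := by
  have hQ : Q ρ τ f (fun t u => (χ (t - u)).re) =
      ∑ h, mu ρ h * ∑ u, mu τ u * (f (h + u) * ∑ t, mu τ t * ((χ (t - u)).re * f (h + t))) := by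
    unfold Q
    calc _ = ∑ t, mu τ t * ∑ u, mu τ u * ∑ h, mu ρ h *
            ((χ (t - u)).re * (f (h + t) * f (h + u))) := by
          refine Finset.sum_congr rfl fun t _ => ?_
          congr 1
          refine Finset.sum_congr rfl fun u _ => ?_
          rw [avg_mul]
      _ = ∑ h, mu ρ h * ∑ t, mu τ t * ∑ u, mu τ u *
            ((χ (t - u)).re * (f (h + t) * f (h + u))) := avg_rot _ _ _ _
      _ = _ := by
          refine Finset.sum_congr rfl fun h _ => ?_
          congr 1
          rw [avg_comm τ τ]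
          refine Finset.sum_congr rfl fun u _ => ?_
          congr 1
          rw [← avg_mul]
          refine Finset.sum_congr rfl fun t _ => by ring
  have hX : ∀ h u : G, |∑ t, mu τ t * ((χ (t - u)).re * f (h + t))| ≤
      ∑ t, mu τ t * |D f (h + t) ρ'| + 4 * κ := by
    intro h u
    have h4 := two_fold (hτ.plus (sig_isSN χ)) h2
      (fun r => ∑ t, mu τ t * ((χ (t - u)).re * f (h + t + r)))
      (∑ t, mu τ t * ((χ (t - u)).re * f (h + t))) (by
        intro r
        have h5 := avg_shift hτ (fun t => (χ (t - u)).re * f (h + t)) (fun t => by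
          rw [abs_mul]
          exact mul_le_one₀ (abs_re_le_one χ _) (abs_nonneg _) (hf _)) r
        have h6 : |∑ t, mu τ t * ((χ (t - u)).re * f (h + t + r)) -
            ∑ t, mu τ t * ((χ (t + r - u)).re * f (h + (t + r)))| ≤ sig χ r := by
          rw [← avg_sub]
          refine abs_avg_le _ _ fun t => ?_
          rw [← add_assoc, ← sub_mul, abs_mul]
          refine (mul_le_of_le_one_right (abs_nonneg _) (hf _)).trans ?_
          have h7 : t + r - u = t - u + r := by abel
          rw [h7, abs_sub_comm]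
          exact re_shift χ _ _
        have h8 := abs_le.mp h5
        have h9 := abs_le.mp h6
        have h10 := (sig_isSN χ).nonneg r
        rw [abs_le]
        constructor <;> linarith [h8.1, h8.2, h9.1, h9.2])
    have h11 : ∑ v, mu ρ' v * ∑ w, mu ρ' w *
        ∑ t, mu τ t * ((χ (t - u)).re * f (h + t + (v + w))) =
        ∑ t, mu τ t * ((χ (t - u)).re * D f (h + t) ρ') := by
      rw [avg_rot]
      refine Finset.sum_congr rfl fun t _ => ?_
      congr 1
      unfold D
      rw [← avg_mul]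
      refine Finset.sum_congr rfl fun v _ => ?_
      rw [avg_mul]
    rw [h11] at h4
    have h12 : |∑ t, mu τ t * ((χ (t - u)).re * D f (h + t) ρ')| ≤
        ∑ t, mu τ t * |D f (h + t) ρ'| := by
      refine (abs_avg_le_avg_abs _ _).trans (avg_le_avg _ fun t => ?_)
      rw [abs_mul]
      exact mul_le_of_le_one_left (abs_nonneg _) (abs_re_le_one χ _)
    have h13 := abs_le.mp h4
    have h14 := abs_le.mp h12
    rw [abs_le]
    constructor <;> linarith [h13.1, h13.2, h14.1, h14.2]
  have hmean : ∑ h, mu ρ h * f h - 6 * κ ≤ ∑ h, mu ρ h * ∑ t, mu τ t * D f (h + t) ρ' := by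
    rw [avg_comm ρ τ]
    have h4 : ∀ t : G, ∑ h, mu ρ h * f h - 2 * ρ t - 4 * κ ≤ ∑ h, mu ρ h * D f (h + t) ρ' := by
      intro t
      have h5 := two_fold hρ h3 (fun r => ∑ h, mu ρ h * f (h + r + t))
        (∑ h, mu ρ h * f (h + t)) (fun r => avg_shift hρ (fun h => f (h + t)) (fun _ => hf _) r)
      have h6 : ∑ v, mu ρ' v * ∑ w, mu ρ' w * ∑ h, mu ρ h * f (h + (v + w) + t) =
          ∑ h, mu ρ h * D f (h + t) ρ' := by
        rw [avg_rot]
        refine Finset.sum_congr rfl fun h _ => ?_
        congr 1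
        unfold D
        refine Finset.sum_congr rfl fun v _ => ?_
        congr 1
        refine Finset.sum_congr rfl fun w _ => ?_
        rw [add_right_comm]
      rw [h6] at h5
      have h7 := abs_le.mp (avg_shift hρ f hf t)
      have h8 := abs_le.mp h5
      linarith [h7.1, h8.1]
    refine le_trans ?_ (avg_le_avg _ h4)
    rw [avg_sub, avg_sub, avg_const, avg_const, avg_mul]
    linarith
  rw [hQ]
  calc _ ≤ ∑ h, mu ρ h * (2 * η + 4 * κ - ∑ t, mu τ t * D f (h + t) ρ') := by
        refine avg_le_avg _ fun h => ?_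
        rw [← avg_const τ (2 * η + 4 * κ - ∑ t, mu τ t * D f (h + t) ρ')]
        refine avg_le_avg _ fun u => ?_
        refine (le_abs_self _).trans ?_
        rw [abs_mul]
        refine (mul_le_of_le_one_left (abs_nonneg _) (hf _)).trans ((hX h u).trans ?_)
        have h4 : ∑ t, mu τ t * |D f (h + t) ρ'| ≤ ∑ t, mu τ t * (2 * η - D f (h + t) ρ') := by
          refine avg_le_avg _ fun t => ?_
          have := hF (h + t)
          rw [abs_le]
          constructor <;> linarith
        rw [avg_sub, avg_const] at h4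
        linarith
    _ ≤ _ := by
        rw [avg_sub, avg_const]
        linarith

lemma D_sub_const (b : G → ℝ) (s y z : G) (ρ : G → ℝ) (δ : ℝ) :
    D (fun x => b (s + (y + x)) - δ) z ρ = D b (s + (y + z)) ρ - δ := by
  unfold D
  simp_rw [avg_sub, avg_const, add_assoc]

lemma D_le_one {b : G → ℝ} (hb : ∀ x, b x ≤ 1) (s : G) (ρ : G → ℝ) : D b s ρ ≤ 1 := by
  unfold D
  refine le_trans (avg_le_avg _ fun v => ?_) (avg_const ρ 1).le
  exact le_trans (avg_le_avg _ fun w => hb _) (avg_const ρ 1).le

lemma step {k : ℕ} (hk : 0 < k) (c : G → Fin k) (b : G → ℝ) (hb0 : ∀ x, 0 ≤ b x)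
    (hb1 : ∀ x, b x ≤ 1) (hb : ∀ x y, x ≠ y → c x = c y → b (x + y) = 0)
    (hdbl : ∀ s : G, ∃ p, p + p = s) {ρ : G → ℝ} (hρ : IsSN ρ) {θ lam : ℝ}
    (hθ : θ = 1 / (4 * (k : ℝ) ^ 2)) (hlam : 1 ≤ lam)
    (hL : log (Fintype.card G) ≤ lam * (θ ^ 4 / 100)) (hZ : 1 / Z ρ ≤ θ)
    (s : G) (hD : 1 / 2 ≤ D b s ρ) :
    ∃ (χ : AddChar G ℂ) (s' : G),
      D b s ρ + θ ^ 4 / 4 ≤ D b s' (fun x => lam * (lam * ρ x + sig χ x)) := by
  classical
  by_contra hcon
  push Not at hcon
  obtain ⟨p, hp⟩ := hdbl s
  have hk' : (1 : ℝ) ≤ k := by exact_mod_cast hk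
  have hθ0 : 0 < θ := by rw [hθ]; positivity
  have hθ1 : θ ≤ 1 / 4 := by
    rw [hθ]
    exact one_div_le_one_div_of_le (by norm_num) (by nlinarith)
  set κ : ℝ := θ ^ 4 / 100 with hκ
  set δ : ℝ := D b s ρ with hδ
  have hδ1 : δ ≤ 1 := D_le_one hb1 s ρ
  have hlam0 : 0 < lam := by linarith
  -- a popular colour
  obtain ⟨i, hi⟩ : ∃ i : Fin k,
      1 / (k : ℝ) ≤ ∑ h, mu ρ h * (if c (p + h) = i then (1 : ℝ) else 0) := by
    by_contra h
    push Not at h
    have h1 : ∑ i : Fin k, ∑ h, mu ρ h * (if c (p + h) = i then (1 : ℝ) else 0) = 1 := by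
      rw [Finset.sum_comm]
      simp_rw [← Finset.mul_sum]
      simp [sum_mu]
    have h2 : ∑ i : Fin k, ∑ h, mu ρ h * (if c (p + h) = i then (1 : ℝ) else 0) <
        ∑ _i : Fin k, 1 / (k : ℝ) :=
      Finset.sum_lt_sum_of_nonempty ⟨⟨0, hk⟩, mem_univ _⟩ fun i _ => h i
    rw [h1, Finset.sum_const, Finset.card_univ, Fintype.card_fin, nsmul_eq_mul,
      mul_one_div_cancel (by positivity)] at h2
    exact lt_irrefl _ h2
  set a : G → ℝ := fun h => if c (p + h) = i then (1 : ℝ) else 0 with ha
  have ha0 : ∀ h, 0 ≤ a h := fun h => by simp only [ha]; split_ifs <;> norm_num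
  have ha1 : ∀ h, a h ≤ 1 := fun h => by simp only [ha]; split_ifs <;> norm_num
  have haabs : ∀ h, |a h| ≤ 1 := fun h => by rw [abs_of_nonneg (ha0 h)]; exact ha1 h
  set α : ℝ := ∑ h, mu ρ h * a h with hα
  set f : G → ℝ := fun z => b (s + z) - δ with hf
  have hfabs : ∀ z, |f z| ≤ 1 := fun z => by
    simp only [hf]
    have := hb0 (s + z)
    have := hb1 (s + z)
    rw [abs_le]
    constructor <;> linarith
  -- the negative correlation
  have hT : ∑ y, mu ρ y * (a y * ∑ h, mu ρ h * (a h * f (y + h))) ≤ -θ := by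
    have h1 : ∀ y, a y * ∑ h, mu ρ h * (a h * f (y + h)) ≤ 1 / Z ρ - δ * α * a y := by
      intro y
      have h2 : ∑ h, mu ρ h * (a h * f (y + h)) =
          ∑ h, mu ρ h * (a h * b (s + (y + h))) - δ * α := by
        rw [hα, ← avg_mul, ← avg_sub]
        exact Finset.sum_congr rfl fun h _ => by simp only [hf]; ring
      have h3 : a y * ∑ h, mu ρ h * (a h * b (s + (y + h))) ≤ 1 / Z ρ := by
        rw [← avg_mul, Finset.sum_eq_single y]
        · refine le_trans (mul_le_of_le_one_right (mu_nonneg _ _) ?_) (mu_le hρ y)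
          exact mul_le_one₀ (ha1 _) (mul_nonneg (ha0 _) (hb0 _))
            (mul_le_one₀ (ha1 _) (hb0 _) (hb1 _))
        · intro h _ hy
          simp only [ha]
          split_ifs with h4 h5
          · have h6 : s + (y + h) = (p + y) + (p + h) := by rw [← hp]; abel
            rw [h6, hb _ _ (fun h7 => hy (add_left_cancel h7).symm) (h4.trans h5.symm)]
            simp
          · simp
          · simp
          · simp
        · intro h; exact absurd (mem_univ _) h
      rw [h2]
      linarith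
    refine (avg_le_avg _ h1).trans ?_
    rw [avg_sub, avg_const, avg_mul, ← hα]
    have h2 : 1 / (k : ℝ) * (1 / (k : ℝ)) ≤ α * α :=
      mul_le_mul hi hi (by positivity) (le_trans (by positivity) hi)
    have h3 : 1 / (k : ℝ) * (1 / (k : ℝ)) = 4 * θ := by
      rw [hθ]; field_simp
    nlinarith
  set τ : G → ℝ := fun x => lam * ρ x with hτ
  have hτSN : IsSN τ := hρ.smul hlam0.le
  have h1κ : ∑ t, mu τ t * ρ t ≤ κ := avg_scaled_le hρ hlam0 hL
  have hκ0 : 0 < κ := by positivity
  -- localise the first variable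
  set T' : G → ℝ := fun y => ∑ h, mu ρ h * (a h * ∑ t, mu τ t * (a (y + t) * f (y + (h + t))))
    with hT'
  have hT'avg : ∑ y, mu ρ y * T' y ≤ -θ + 2 * κ := by
    have h1 : ∑ y, mu ρ y * T' y =
        ∑ t, mu τ t * ∑ y, mu ρ y * (a (y + t) * ∑ h, mu ρ h * (a h * f (y + t + h))) := by
      calc _ = ∑ y, mu ρ y * ∑ h, mu ρ h * ∑ t, mu τ t *
              (a h * (a (y + t) * f (y + (h + t)))) := by
            refine Finset.sum_congr rfl fun y _ => ?_
            congr 1
            refine Finset.sum_congr rfl fun h _ => ?_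
            rw [avg_mul]
        _ = ∑ t, mu τ t * ∑ y, mu ρ y * ∑ h, mu ρ h *
              (a h * (a (y + t) * f (y + (h + t)))) := avg_rot _ _ _ _
        _ = _ := by
            refine Finset.sum_congr rfl fun t _ => ?_
            congr 1
            refine Finset.sum_congr rfl fun y _ => ?_
            congr 1
            rw [← avg_mul]
            refine Finset.sum_congr rfl fun h _ => ?_
            have : y + (h + t) = y + t + h := by abel
            rw [this]; ring
    rw [h1]
    calc _ ≤ ∑ t, mu τ t * (-θ + 2 * ρ t) := by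
          refine avg_le_avg _ fun t => ?_
          have h2 := avg_shift hρ (fun y => a y * ∑ h, mu ρ h * (a h * f (y + h))) (fun y => by
            rw [abs_mul]
            refine mul_le_one₀ (haabs _) (abs_nonneg _) (abs_avg_le _ _ fun h => ?_)
            rw [abs_mul]
            exact mul_le_one₀ (haabs _) (abs_nonneg _) (hfabs _)) t
          have h3 := abs_le.mp h2
          linarith [h3.2]
      _ ≤ -θ + 2 * κ := by
          rw [avg_add, avg_const, avg_mul]
          linarith
  -- the pointwise inequality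
  have hpt : ∀ y, 2 * θ ^ 2 * (-2 * θ * T' y - θ ^ 2 - 2 * κ) - (θ ^ 2) ^ 2 ≤
      2 * (θ ^ 4 / 4) - ∑ h, mu ρ h * f (y + h) + 14 * κ := by
    intro y
    have hQ : -2 * θ * T' y ≤ θ ^ 2 +
        Q ρ τ (fun x => f (y + x)) (fun t u => a (y + t) * a (y + u)) := by
      have h1 : Q ρ τ (fun x => f (y + x)) (fun t u => a (y + t) * a (y + u)) =
          ∑ h, mu ρ h * ((∑ t, mu τ t * (a (y + t) * f (y + (h + t)))) *
            ∑ t, mu τ t * (a (y + t) * f (y + (h + t)))) := by
        unfold Q
        calc _ = ∑ t, mu τ t * ∑ u, mu τ u * ∑ h, mu ρ h *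
                ((a (y + t) * a (y + u)) * (f (y + (h + t)) * f (y + (h + u)))) := by
              refine Finset.sum_congr rfl fun t _ => ?_
              congr 1
              refine Finset.sum_congr rfl fun u _ => ?_
              rw [avg_mul]
          _ = ∑ h, mu ρ h * ∑ t, mu τ t * ∑ u, mu τ u *
                ((a (y + t) * a (y + u)) * (f (y + (h + t)) * f (y + (h + u)))) :=
              avg_rot _ _ _ _
          _ = _ := by
              refine Finset.sum_congr rfl fun h _ => ?_
              congr 1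
              rw [Finset.sum_mul_sum]
              refine Finset.sum_congr rfl fun t _ => ?_
              rw [Finset.mul_sum]
              refine Finset.sum_congr rfl fun u _ => by ring
      rw [h1, hT', ← avg_mul, ← avg_const ρ (θ ^ 2), ← avg_add]
      refine avg_le_avg _ fun h => ?_
      generalize (∑ t, mu τ t * (a (y + t) * f (y + (h + t)))) = Y
      have h2 : (θ * a h) ^ 2 ≤ θ ^ 2 := by
        rw [mul_pow]
        refine mul_le_of_le_one_right (sq_nonneg _) ?_
        have := ha0 h
        have := ha1 h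
        nlinarith
      nlinarith [sq_nonneg (θ * a h + Y)]
    have hmabs : |∑ h, mu ρ h * f (y + h)| ≤ 1 := abs_avg_le _ _ fun h => hfabs _
    by_cases hw0 : 0 ≤ 2 * (θ ^ 4 / 4) - ∑ h, mu ρ h * f (y + h) + 10 * κ
    · have hinv := local_inverse hρ h1κ (fun x => f (y + x)) (fun x => hfabs _)
        (fun t u => a (y + t) * a (y + u)) (fun t u => by
          rw [abs_mul]; exact mul_le_one₀ (haabs _) (abs_nonneg _) (haabs _))
        (a := θ ^ 2) (sq_nonneg _) hw0 (fun χ => by
          have hSN : IsSN (fun x => lam * ρ x + sig χ x) := hτSN.plus (sig_isSN χ)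
          have h2 := avg_scaled_le hSN hlam0 hL
          refine Q_upper hρ hτSN χ h1κ h2 (le_trans (avg_le_avg _ fun v => ?_) h2)
            (by positivity) _ (fun x => hfabs _) (fun z => ?_)
          · have := hρ.nonneg v
            have := (sig_isSN χ).nonneg v
            nlinarith
          · simp only [hf]
            rw [D_sub_const]
            have := hcon χ (s + (y + z))
            linarith)
      have h3 : 2 * θ ^ 2 * (-2 * θ * T' y - θ ^ 2 - 2 * κ) ≤ 2 * θ ^ 2 *
          (Q ρ τ (fun x => f (y + x)) (fun t u => a (y + t) * a (y + u)) - 2 * κ) :=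
        mul_le_mul_of_nonneg_left (by linarith) (by positivity)
      linarith
    · exfalso
      apply hw0
      -- the mean of `f` at scale `ρ` cannot exceed the increment by much
      have hSN : IsSN (fun x => lam * ρ x + sig (0 : AddChar G ℂ) x) := hτSN.plus (sig_isSN 0)
      have h2 := avg_scaled_le hSN hlam0 hL
      have h3 : ∑ v, mu (fun x => lam * (lam * ρ x + sig (0 : AddChar G ℂ) x)) v * ρ v ≤ κ := by
        refine le_trans (avg_le_avg _ fun v => ?_) h2
        have := hρ.nonneg v
        have := (sig_isSN (0 : AddChar G ℂ)).nonneg v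
        nlinarith
      have h5 := two_fold hρ h3 (fun r => ∑ h, mu ρ h * f (y + (h + r)))
        (∑ h, mu ρ h * f (y + h)) (fun r => avg_shift hρ (fun h => f (y + h)) (fun _ => hfabs _) r)
      rw [avg_rot] at h5
      have h6 : ∑ h, mu ρ h * ∑ v, mu (fun x => lam * (lam * ρ x + sig (0 : AddChar G ℂ) x)) v *
          ∑ w, mu (fun x => lam * (lam * ρ x + sig (0 : AddChar G ℂ) x)) w *
            f (y + (h + (v + w))) ≤ θ ^ 4 / 4 := by
        refine le_trans (avg_le_avg _ fun h => ?_) (avg_const ρ _).le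
        have h7 := D_sub_const b s y h (fun x => lam * (lam * ρ x + sig (0 : AddChar G ℂ) x)) δ
        have h8 := hcon 0 (s + (y + h))
        unfold D at h7
        simp only [hf]
        rw [h7]
        unfold D at h8
        linarith
      have h9 := abs_le.mp h5
      have : 0 < θ ^ 4 := by positivity
      linarith [h9.1]
  have hsum := avg_le_avg ρ hpt
  have hmean : ∑ y, mu ρ y * ∑ h, mu ρ h * f (y + h) = 0 := by
    simp only [hf]
    simp_rw [avg_sub, avg_const]
    rw [hδ]
    unfold D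
    ring
  rw [avg_sub, avg_const, avg_mul, avg_sub, avg_sub, avg_const, avg_const, avg_mul, avg_add,
    avg_sub, avg_const, avg_const, hmean] at hsum
  have h4 : 0 < θ ^ 4 := by positivity
  have h5 : θ ^ 3 * (∑ y, mu ρ y * T' y) ≤ θ ^ 3 * (-θ + 2 * κ) :=
    mul_le_mul_of_nonneg_left hT'avg (by positivity)
  have h6 : θ ^ 3 * κ ≤ κ := mul_le_of_le_one_left hκ0.le (pow_le_one₀ hθ0.le (by linarith))
  have h7 : θ ^ 2 * κ ≤ κ := mul_le_of_le_one_left hκ0.le (pow_le_one₀ hθ0.le (by linarith))
  nlinarith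

end Pool.Agent.MP_9da210_nt.H24
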