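import Mathlib
import Pool.Agent.MP_9da210_nt.H24.Step

/-!
Iteration of the increment step, and the resulting bound for colourings of an interval.
-/

set_option autoImplicit false
set_option linter.unusedSectionVars false

namespace Pool.Agent.MP_9da210_nt.H24

open Finset Real

variable {G : Type} [AddCommGroup G] [Fintype G]

lemma iterate {k : ℕ} (hk : 0 < k) (c : G → Fin k) (b : G → ℝ) (hb0 : ∀ x, 0 ≤ b x)
    (hb1 : ∀ x, b x ≤ 1) (hb : ∀ x y, x ≠ y → c x = c y → b (x + y) = 0)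
    (hdbl : ∀ s : G, ∃ p, p + p = s) {θ : ℝ} (hθ : θ = 1 / (4 * (k : ℝ) ^ 2))
    {Λ T R n : ℕ} (hΛ : 1 ≤ Λ) (hL : log (Fintype.card G) ≤ Λ * (θ ^ 4 / 100))
    (hn : n = 2 * (2 * Λ ^ 2) ^ T) (hR : R = (2 * n + 1) * (2 * n + 1))
    (hM : 12 * (k : ℝ) ^ 2 * (R : ℝ) ^ T ≤ Fintype.card G)
    (h0 : 1 / 2 ≤ D b 0 (fun _ => 0)) :
    ∀ j ≤ T, ∃ (ρ : G → ℝ) (s : G), IsSN ρ ∧
      Cover ρ ((2 * (Λ : ℝ) ^ 2) ^ j * (2 / n)) (R ^ j) ∧ 1 / 2 + j * (θ ^ 4 / 4) ≤ D b s ρ := by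
  have hΛ' : (1 : ℝ) ≤ Λ := by exact_mod_cast hΛ
  have hn0 : 0 < n := by rw [hn]; positivity
  have hn0' : (0 : ℝ) < n := by exact_mod_cast hn0
  have hk' : (1 : ℝ) ≤ k := by exact_mod_cast hk
  have hθ0 : 0 < θ := by rw [hθ]; positivity
  have h2Λ : (1 : ℝ) ≤ 2 * (Λ : ℝ) ^ 2 := by nlinarith
  have hR1 : (1 : ℝ) ≤ R := by
    have : 1 ≤ R := by rw [hR]; exact Nat.one_le_iff_ne_zero.mpr (by positivity)
    exact_mod_cast this
  intro j
  induction j with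
  | zero =>
    intro _
    refine ⟨fun _ => 0, 0, ⟨rfl, fun _ => rfl, fun _ _ => by simp⟩, ?_, by simpa using h0⟩
    refine ⟨fun _ => ⟨0, by simp⟩, fun _ _ _ => by positivity⟩
  | succ j ih =>
    intro hj
    obtain ⟨ρ, s, hρ, hcov, hD⟩ := ih (by omega)
    have hε : (2 * (Λ : ℝ) ^ 2) ^ j * (2 / n) ≤ 1 := by
      have h1 : (2 * (Λ : ℝ) ^ 2) ^ j ≤ (2 * (Λ : ℝ) ^ 2) ^ T := pow_le_pow_right₀ h2Λ (by omega)
      have h2 : (n : ℝ) = 2 * (2 * (Λ : ℝ) ^ 2) ^ T := by rw [hn]; push_cast; ring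
      rw [← mul_div_assoc, div_le_one hn0']
      linarith
    have hZ : 1 / Z ρ ≤ θ := by
      have h1 := (hcov.mono hε).le_Z
      have h2 : (R : ℝ) ^ j ≤ (R : ℝ) ^ T := pow_le_pow_right₀ hR1 (by omega)
      have h3 : (0 : ℝ) < (R : ℝ) ^ j := by positivity
      push_cast at h1
      have h4 : 4 * (k : ℝ) ^ 2 ≤ Z ρ := by
        have h5 : 12 * (k : ℝ) ^ 2 * (R : ℝ) ^ j ≤ 12 * (k : ℝ) ^ 2 * (R : ℝ) ^ T :=
          mul_le_mul_of_nonneg_left h2 (by positivity)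
        have h6 : (3 * (R : ℝ) ^ j) * (4 * (k : ℝ) ^ 2) ≤ (3 * (R : ℝ) ^ j) * Z ρ := by
          linarith
        exact le_of_mul_le_mul_left h6 (by positivity)
      rw [hθ]
      exact one_div_le_one_div_of_le (by positivity) h4
    have hD' : 1 / 2 ≤ D b s ρ := by
      have : 0 ≤ (j : ℝ) * (θ ^ 4 / 4) := by positivity
      linarith
    obtain ⟨χ, s', hs'⟩ := step hk c b hb0 hb1 hb hdbl hρ hθ hΛ' hL hZ s hD'
    have hΛ0 : (0 : ℝ) ≤ Λ := by linarith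
    refine ⟨fun x => (Λ : ℝ) * ((Λ : ℝ) * ρ x + sig χ x), s',
      ((hρ.smul hΛ0).plus (sig_isSN χ)).smul hΛ0, ?_, ?_⟩
    swap
    · push_cast
      linarith
    have h1 := ((hcov.smul (a := (Λ : ℝ)) (by linarith)).plus (sig_cover χ hn0)).smul
      (a := (Λ : ℝ)) (by linarith)
    rw [← hR, ← pow_succ] at h1
    refine h1.mono ?_
    have h2 : (1 : ℝ) ≤ (2 * (Λ : ℝ) ^ 2) ^ j := one_le_pow₀ h2Λ
    have h3 : (0 : ℝ) < 2 / n := by positivity
    have h4 : (Λ : ℝ) ≤ (Λ : ℝ) ^ 2 * (2 * (Λ : ℝ) ^ 2) ^ j := by nlinarith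
    have h5 := mul_le_mul_of_nonneg_right h4 h3.le
    rw [pow_succ (2 * (Λ : ℝ) ^ 2) j]
    nlinarith

/-- the group version -/
theorem group_bound {k : ℕ} (hk : 0 < k) (c : G → Fin k) (hdbl : ∀ s : G, ∃ p, p + p = s)
    (hM : (4 * (k : ℝ)) ^ 17 ≤ log (Fintype.card G)) (U : Finset G)
    (hU : ∀ x y, x ≠ y → c x = c y → x + y ∈ U) : (Fintype.card G : ℝ) < 2 * U.card := by
  classical
  by_contra hcon
  push Not at hcon
  have hMpos : (0 : ℝ) < Fintype.card G := by exact_mod_cast Fintype.card_pos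
  have hk' : (1 : ℝ) ≤ k := by exact_mod_cast hk
  set L : ℝ := log (Fintype.card G) with hLdef
  set θ : ℝ := 1 / (4 * (k : ℝ) ^ 2) with hθ
  have hθ4 : θ ^ 4 = 1 / (256 * (k : ℝ) ^ 8) := by rw [hθ]; field_simp; norm_num
  set Λ : ℕ := ⌈25600 * (k : ℝ) ^ 8 * L⌉₊ with hΛ
  set T : ℕ := 1024 * k ^ 8 with hT
  have hk8 : (1 : ℝ) ≤ (k : ℝ) ^ 8 := one_le_pow₀ hk'
  have hk9 : (1 : ℝ) ≤ (k : ℝ) ^ 9 := one_le_pow₀ hk'
  have hLk : 4 ^ 17 * (k : ℝ) ^ 8 ≤ L := by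
    refine le_trans ?_ hM
    have : (4 * (k : ℝ)) ^ 17 = 4 ^ 17 * (k : ℝ) ^ 8 * (k : ℝ) ^ 9 := by ring
    rw [this]
    exact le_mul_of_one_le_right (by positivity) hk9
  have hL5 : 5 ≤ L := by nlinarith
  have hΛ1 : 1 ≤ Λ := by
    rw [hΛ]
    exact Nat.one_le_ceil_iff.mpr (by positivity)
  have hΛle : (Λ : ℝ) ≤ L ^ 2 := by
    have h1 : (Λ : ℝ) < 25600 * (k : ℝ) ^ 8 * L + 1 := Nat.ceil_lt_add_one (by positivity)
    nlinarith
  have hΛge : L ≤ Λ * (θ ^ 4 / 100) := by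
    have h1 : 25600 * (k : ℝ) ^ 8 * L ≤ Λ := Nat.le_ceil _
    rw [hθ4]
    have h2 : (Λ : ℝ) * (1 / (256 * (k : ℝ) ^ 8) / 100) = Λ / (25600 * (k : ℝ) ^ 8) := by
      field_simp; norm_num
    rw [h2, le_div_iff₀ (by positivity)]
    linarith
  have hT1 : 1 ≤ T := by rw [hT]; exact Nat.one_le_iff_ne_zero.mpr (by positivity)
  have hL1 : 1 ≤ L := by linarith
  set n : ℕ := 2 * (2 * Λ ^ 2) ^ T with hn
  set R : ℕ := (2 * n + 1) * (2 * n + 1) with hR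
  have hRle : (R : ℝ) ≤ L ^ (12 * T) := by
    have h1 : 2 * (Λ : ℝ) ^ 2 ≤ L ^ 5 := by
      have h2 : (Λ : ℝ) ^ 2 ≤ (L ^ 2) ^ 2 := pow_le_pow_left₀ (by positivity) hΛle 2
      have h3 : L ^ 5 = L * (L ^ 2) ^ 2 := by ring
      have h4 : 0 ≤ (L ^ 2) ^ 2 := by positivity
      nlinarith
    have h2 : (2 * (Λ : ℝ) ^ 2) ^ T ≤ (L ^ 5) ^ T := pow_le_pow_left₀ (by positivity) h1 T
    have h3 : (1 : ℝ) ≤ (L ^ 5) ^ T := one_le_pow₀ (one_le_pow₀ hL1)
    have h4 : L ≤ L ^ T := le_self_pow₀ hL1 (by omega)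
    have h5 : 2 * (n : ℝ) + 1 ≤ L ^ (6 * T) := by
      have h6 : L ^ (6 * T) = L ^ T * (L ^ 5) ^ T := by ring
      have h7 : (n : ℝ) = 2 * (2 * (Λ : ℝ) ^ 2) ^ T := by rw [hn]; push_cast; ring
      rw [h6, h7]
      nlinarith
    have h8 : L ^ (12 * T) = L ^ (6 * T) * L ^ (6 * T) := by ring
    rw [h8, hR]
    push_cast
    exact mul_le_mul h5 h5 (by positivity) (by positivity)
  have hcard : 12 * (k : ℝ) ^ 2 * (R : ℝ) ^ T ≤ Fintype.card G := by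
    have h1 : (R : ℝ) ^ T ≤ (L ^ (12 * T)) ^ T := pow_le_pow_left₀ (by positivity) hRle T
    have h2 : 12 * (k : ℝ) ^ 2 ≤ L := by
      have : (k : ℝ) ^ 2 ≤ (k : ℝ) ^ 8 := pow_le_pow_right₀ hk' (by norm_num)
      nlinarith
    have h3 : L ≤ L ^ (T * T) := le_self_pow₀ hL1 (by positivity)
    have h4 : 12 * (k : ℝ) ^ 2 * (R : ℝ) ^ T ≤ L ^ (13 * (T * T)) := by
      have : L ^ (13 * (T * T)) = L ^ (T * T) * (L ^ (12 * T)) ^ T := by ring
      rw [this]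
      exact mul_le_mul (h2.trans h3) h1 (by positivity) (by positivity)
    refine h4.trans ?_
    rw [← exp_log (show (0 : ℝ) < L ^ (13 * (T * T)) by positivity), ← exp_log hMpos,
      exp_le_exp, log_pow, ← hLdef]
    set y : ℝ := L ^ ((1 : ℝ) / 17) with hy
    have hy0 : 0 ≤ y := by positivity
    have hy17 : y ^ 17 = L := by
      rw [hy, ← rpow_natCast, ← rpow_mul (by linarith)]
      norm_num
    have hlog : log L ≤ 17 * y := by
      have := log_le_rpow_div (x := L) (ε := (1 : ℝ) / 17) (by linarith) (by norm_num)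
      rw [← hy] at this
      linarith
    have hyk : 4 * (k : ℝ) ≤ y := by
      refine le_of_pow_le_pow_left₀ (n := 17) (by norm_num) hy0 ?_
      rw [hy17]; exact hM
    have hy16 : (4 * (k : ℝ)) ^ 16 ≤ y ^ 16 := pow_le_pow_left₀ (by positivity) hyk 16
    have h5 : ((13 * (T * T) : ℕ) : ℝ) = 13 * 2 ^ 20 * (k : ℝ) ^ 16 := by
      rw [hT]; push_cast; ring
    have h6 : (4 * (k : ℝ)) ^ 16 = 2 ^ 32 * (k : ℝ) ^ 16 := by ring
    have h7 : 0 ≤ (k : ℝ) ^ 16 := by positivity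
    rw [h5]
    calc 13 * 2 ^ 20 * (k : ℝ) ^ 16 * log L ≤ 13 * 2 ^ 20 * (k : ℝ) ^ 16 * (17 * y) :=
          mul_le_mul_of_nonneg_left hlog (by positivity)
      _ = (17 * 13 * 2 ^ 20 * (k : ℝ) ^ 16) * y := by ring
      _ ≤ y ^ 16 * y := mul_le_mul_of_nonneg_right (by nlinarith) hy0
      _ = L := by rw [← hy17]; ring
  set b : G → ℝ := fun z => if z ∈ U then 0 else 1 with hbdef
  have hb0 : ∀ x, 0 ≤ b x := fun x => by simp only [hbdef]; split_ifs <;> norm_num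
  have hb1 : ∀ x, b x ≤ 1 := fun x => by simp only [hbdef]; split_ifs <;> norm_num
  have hb : ∀ x y, x ≠ y → c x = c y → b (x + y) = 0 := fun x y h1 h2 => by
    simp only [hbdef]; rw [if_pos (hU x y h1 h2)]
  have h0 : 1 / 2 ≤ D b 0 (fun _ => 0) := by
    have hmu : ∀ x : G, mu (fun _ => (0 : ℝ)) x = 1 / Fintype.card G := by
      intro x
      simp [mu, Z]
    have hsumb : ∑ x, b x = Fintype.card G - U.card := by
      have : ∀ x, b x = 1 - (if x ∈ U then 1 else 0) := fun x => by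
        simp only [hbdef]; split_ifs <;> norm_num
      simp_rw [this]
      rw [Finset.sum_sub_distrib]
      simp
    unfold D
    refine le_trans (avg_const (fun _ => (0 : ℝ)) (1 / 2)).ge (avg_le_avg _ fun v => ?_)
    simp_rw [hmu]
    rw [← Finset.mul_sum]
    have h1 : ∑ w, b (0 + (v + w)) = ∑ x, b x := by
      rw [← sum_shift b v]
      exact Finset.sum_congr rfl fun w _ => by rw [zero_add, add_comm]
    rw [h1, hsumb, one_div_mul_eq_div, le_div_iff₀ hMpos]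
    linarith
  obtain ⟨ρ, s, -, -, hD⟩ := iterate hk c b hb0 hb1 hb hdbl hθ hΛ1 hΛge hn hR hcard h0 T le_rfl
  have h1 := D_le_one hb1 s ρ
  have h2 : (T : ℝ) * (θ ^ 4 / 4) = 1 := by
    rw [hθ4, hT]; push_cast; field_simp; norm_num
  linarith

/-- colourings of an interval of odd length -/
theorem odd_bound {k M N : ℕ} (hk : 0 < k) (hodd : Odd M) (hMN : M ≤ N)
    (hM : (4 * (k : ℝ)) ^ 17 ≤ log M) (c : ℕ → Fin k) :
    (M : ℝ) < 2 * (Set.ncard {s : ℕ | ∃ a b : ℕ, 1 ≤ a ∧ a ≤ N ∧ 1 ≤ b ∧ b ≤ N ∧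
      a ≠ b ∧ c a = c b ∧ a + b = s} : ℕ) := by
  classical
  have hM0 : M ≠ 0 := by rintro rfl; simp at hodd
  have : NeZero M := ⟨hM0⟩
  set S : Set ℕ := {s : ℕ | ∃ a b : ℕ, 1 ≤ a ∧ a ≤ N ∧ 1 ≤ b ∧ b ≤ N ∧
      a ≠ b ∧ c a = c b ∧ a + b = s} with hS
  have hSfin : S.Finite := by
    refine (Set.finite_Iic (N + N)).subset ?_
    rintro s ⟨a, b, _, ha, _, hb, _, _, rfl⟩
    exact add_le_add ha hb
  have h := group_bound (G := ZMod M) hk (fun x => c (x.val + 1)) ?_ (by rwa [ZMod.card])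
    (hSfin.toFinset.image fun s : ℕ => (s : ZMod M) - 2) ?_
  · rw [ZMod.card] at h
    refine h.trans_le (mul_le_mul_of_nonneg_left ?_ (by norm_num))
    rw [Set.ncard_eq_toFinset_card S hSfin]
    exact_mod_cast Finset.card_image_le
  · intro s
    obtain ⟨m, hm⟩ := hodd
    refine ⟨((m + 1 : ℕ) : ZMod M) * s, ?_⟩
    have h1 : ((2 * m + 1 : ℕ) : ZMod M) = 0 := by rw [← hm]; exact ZMod.natCast_self M
    push_cast at h1 ⊢
    linear_combination s * h1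
  · intro x y hxy hc
    refine Finset.mem_image.mpr ⟨x.val + 1 + (y.val + 1), ?_, ?_⟩
    · rw [Set.Finite.mem_toFinset]
      have := ZMod.val_lt x
      have := ZMod.val_lt y
      refine ⟨x.val + 1, y.val + 1, by omega, by omega, by omega, by omega, ?_, hc, rfl⟩
      intro h1
      exact hxy (ZMod.val_injective M (by omega))
    · push_cast
      rw [ZMod.natCast_zmod_val, ZMod.natCast_zmod_val]
      ring

/-- colourings of an arbitrary interval -/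
theorem interval_bound {k N : ℕ} (hk : 0 < k) (hN : 2 ≤ N)
    (hM : (4 * (k : ℝ)) ^ 17 ≤ log ((N : ℝ) - 1)) (c : ℕ → Fin k) :
    (N : ℝ) - 1 < 2 * (Set.ncard {s : ℕ | ∃ a b : ℕ, 1 ≤ a ∧ a ≤ N ∧ 1 ≤ b ∧ b ≤ N ∧
      a ≠ b ∧ c a = c b ∧ a + b = s} : ℕ) := by
  have hN' : (2 : ℝ) ≤ N := by exact_mod_cast hN
  rcases Nat.even_or_odd N with h | h
  · have h1 : Odd (N - 1) := Nat.Even.sub_odd (by omega) h odd_one
    have h2 : ((N - 1 : ℕ) : ℝ) = (N : ℝ) - 1 := by rw [Nat.cast_sub (by omega)]; simp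
    have := odd_bound hk h1 (Nat.sub_le N 1) (by rwa [h2]) c
    rwa [h2] at this
  · have := odd_bound hk h le_rfl (hM.trans (log_le_log (by linarith) (by linarith))) c
    linarith

end Pool.Agent.MP_9da210_nt.H24
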